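import Pool.Agent.TDN.Basic

/-!
# Pointwise bounds, multiplication by the variable, and choices of signs
-/

set_option autoImplicit false

namespace Pool.Agent.TDN

open Polynomial MeasureTheory intervalIntegral

/-- Cauchy-Schwarz for the integral of a polynomial -/
lemma sq_int_le (f : ℝ[X]) (a b : ℝ) (hab : a ≤ b) :
    (∫ t in a..b, f.eval t) ^ 2 ≤ (b - a) * ∫ t in a..b, f.eval t ^ 2 := by
  have key : ∀ s : ℝ, 0 ≤ (b - a) * (s * s) + (-2 * ∫ t in a..b, f.eval t) * s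
      + ∫ t in a..b, f.eval t ^ 2 := by
    intro s
    have h0 : 0 ≤ ∫ t in a..b, (f.eval t - s) ^ 2 := by
      apply intervalIntegral.integral_nonneg hab
      intro t _
      exact sq_nonneg _
    have i1 : IntervalIntegrable (fun t => f.eval t ^ 2) volume a b :=
      (f.continuous.pow 2).intervalIntegrable a b
    have i2 : IntervalIntegrable (fun t => (2 * s) * f.eval t) volume a b :=
      (continuous_const.mul f.continuous).intervalIntegrable a b
    have i3 : IntervalIntegrable (fun _ : ℝ => s ^ 2) volume a b :=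
      continuous_const.intervalIntegrable a b
    have h1 : (∫ t in a..b, (f.eval t - s) ^ 2)
        = (∫ t in a..b, f.eval t ^ 2) - (2 * s) * (∫ t in a..b, f.eval t) + (b - a) * s ^ 2 := by
      have e1 : (∫ t in a..b, (f.eval t - s) ^ 2)
          = ∫ t in a..b, ((f.eval t ^ 2 - (2 * s) * f.eval t) + s ^ 2) := by
        apply intervalIntegral.integral_congr
        intro t _
        simp only
        ring
      rw [e1, intervalIntegral.integral_add (i1.sub i2) i3, intervalIntegral.integral_sub i1 i2,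
        intervalIntegral.integral_const_mul, intervalIntegral.integral_const, smul_eq_mul]
    rw [h1] at h0
    nlinarith
  have hd := discrim_le_zero key
  unfold discrim at hd
  nlinarith

/-- monotonicity of the integral of a square in the interval -/
lemma int_sq_mono (f : ℝ[X]) (a b c d : ℝ) (hac : c ≤ a) (hab : a ≤ b) (hbd : b ≤ d) :
    (∫ t in a..b, f.eval t ^ 2) ≤ ∫ t in c..d, f.eval t ^ 2 := by
  apply intervalIntegral.integral_mono_interval hac hab hbd
  · exact Filter.Eventually.of_forall fun t => sq_nonneg _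
  · exact (f.continuous.pow 2).intervalIntegrable c d

lemma int_derivative (p : ℝ[X]) (a b : ℝ) :
    (∫ t in a..b, (derivative p).eval t) = p.eval b - p.eval a := by
  apply intervalIntegral.integral_eq_sub_of_hasDerivAt
  · intro x _
    exact p.hasDerivAt x
  · exact (derivative p).continuous.intervalIntegrable a b

lemma dn_sq_eq (T : ℝ) (hT : 0 ≤ T) (p : ℝ[X]) :
    dn T p ^ 2 = T * ∫ t in (0 : ℝ)..T, (derivative p).eval t ^ 2 := by
  rw [dn_sq T hT]
  unfold dform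
  simp only [sq]

/-- two-point bound -/
lemma sq_sub_le (T : ℝ) (hT : 0 < T) (p : ℝ[X]) (s t : ℝ) (hs : 0 ≤ s) (hst : s ≤ t)
    (ht : t ≤ T) : (p.eval t - p.eval s) ^ 2 ≤ (t - s) / T * dn T p ^ 2 := by
  rw [← int_derivative p s t, dn_sq_eq T hT.le]
  have h1 := sq_int_le (derivative p) s t hst
  have h2 := int_sq_mono (derivative p) s t 0 T hs hst ht
  have h3 : (t - s) / T * (T * ∫ t in (0 : ℝ)..T, (derivative p).eval t ^ 2)
      = (t - s) * ∫ t in (0 : ℝ)..T, (derivative p).eval t ^ 2 := by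
    field_simp
  rw [h3]
  exact h1.trans (mul_le_mul_of_nonneg_left h2 (by linarith))

lemma theta_nonneg (T t : ℝ) : 0 ≤ theta T t := Real.sqrt_nonneg _

lemma theta_sq (T t : ℝ) (hT : 0 < T) (ht : t ≤ T) : theta T t ^ 2 = (T - t) / T :=
  Real.sq_sqrt (div_nonneg (by linarith) hT.le)

lemma theta_le_one (T t : ℝ) (hT : 0 < T) (ht : 0 ≤ t) : theta T t ≤ 1 := by
  unfold theta
  rw [Real.sqrt_le_one]
  rw [div_le_one hT]
  linarith

/-- `|p(t) - p(T)| ≤ theta * dn` -/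
lemma abs_sub_le (T : ℝ) (hT : 0 < T) (p : ℝ[X]) (t : ℝ) (h0 : 0 ≤ t) (ht : t ≤ T) :
    |p.eval t - p.eval T| ≤ theta T t * dn T p := by
  have h := sq_sub_le T hT p t T h0 ht le_rfl
  rw [← theta_sq T t hT ht, ← mul_pow] at h
  have h2 := abs_le_of_sq_le_sq h (mul_nonneg (theta_nonneg _ _) (dn_nonneg _ _))
  rw [abs_sub_comm]
  exact h2

lemma le_eval (T : ℝ) (hT : 0 < T) (p : ℝ[X]) (t : ℝ) (h0 : 0 ≤ t) (ht : t ≤ T) :
    p.eval T - theta T t * dn T p ≤ p.eval t := by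
  have := abs_le.1 (abs_sub_le T hT p t h0 ht)
  linarith [this.1]

lemma eval_le (T : ℝ) (hT : 0 < T) (p : ℝ[X]) (t : ℝ) (h0 : 0 ≤ t) (ht : t ≤ T) :
    p.eval t ≤ p.eval T + theta T t * dn T p := by
  have := abs_le.1 (abs_sub_le T hT p t h0 ht)
  linarith [this.2]

lemma eval_top_le (T : ℝ) (hT : 0 < T) (p : ℝ[X]) (t : ℝ) (h0 : 0 ≤ t) (ht : t ≤ T) :
    p.eval T ≤ p.eval t + theta T t * dn T p := by
  have := abs_le.1 (abs_sub_le T hT p t h0 ht)
  linarith [this.1]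

/-- if the value at `T` is nonnegative then the value at `t` is at least `-theta * dn` -/
lemma neg_theta_le (T : ℝ) (hT : 0 < T) (p : ℝ[X]) (t : ℝ) (h0 : 0 ≤ t) (ht : t ≤ T)
    (hp : 0 ≤ p.eval T) : -(theta T t * dn T p) ≤ p.eval t := by
  have := le_eval T hT p t h0 ht
  linarith

/-- `|p(t) - p(0)|` bound -/
lemma abs_sub_zero_le (T : ℝ) (hT : 0 < T) (p : ℝ[X]) (t : ℝ) (h0 : 0 ≤ t) (ht : t ≤ T) :
    |p.eval t - p.eval 0| ≤ Real.sqrt (t / T) * dn T p := by
  have h := sq_sub_le T hT p 0 t le_rfl h0 ht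
  have h1 : Real.sqrt (t / T) ^ 2 = t / T := Real.sq_sqrt (div_nonneg h0 hT.le)
  rw [sub_zero, ← h1, ← mul_pow] at h
  exact abs_le_of_sq_le_sq h (mul_nonneg (Real.sqrt_nonneg _) (dn_nonneg _ _))

/-- the exact formula for multiplication by the variable -/
lemma dn_X_mul_sq_eq (T : ℝ) (hT : 0 ≤ T) (p : ℝ[X]) :
    dn T (X * p) ^ 2 = T ^ 2 * p.eval T ^ 2
      + T * ∫ t in (0 : ℝ)..T, t ^ 2 * (derivative p).eval t ^ 2 := by
  rw [dn_sq_eq T hT]
  have i1 : IntervalIntegrable (fun t => (derivative (X * p ^ 2)).eval t) volume 0 T :=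
    int_poly _ _ _
  have i2 : IntervalIntegrable (fun t : ℝ => t ^ 2 * (derivative p).eval t ^ 2) volume 0 T :=
    ((continuous_id.pow 2).mul ((derivative p).continuous.pow 2)).intervalIntegrable 0 T
  have e : (∫ t in (0 : ℝ)..T, (derivative (X * p)).eval t ^ 2)
      = (∫ t in (0 : ℝ)..T, (derivative (X * p ^ 2)).eval t)
        + ∫ t in (0 : ℝ)..T, t ^ 2 * (derivative p).eval t ^ 2 := by
    rw [← intervalIntegral.integral_add i1 i2]
    apply intervalIntegral.integral_congr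
    intro t _
    simp only [derivative_mul, derivative_X, one_mul, eval_add, eval_mul, eval_X, derivative_pow,
      eval_pow, Nat.cast_ofNat, map_ofNat, eval_ofNat]
    norm_num
    ring
  rw [e, int_derivative]
  simp only [eval_mul, eval_X, eval_pow, zero_mul, sub_zero]
  ring

lemma dn_X_mul_sq_le (T : ℝ) (hT : 0 ≤ T) (p : ℝ[X]) :
    dn T (X * p) ^ 2 ≤ T ^ 2 * (p.eval T ^ 2 + dn T p ^ 2) := by
  rw [dn_X_mul_sq_eq T hT, dn_sq_eq T hT]
  have i2 : IntervalIntegrable (fun t : ℝ => t ^ 2 * (derivative p).eval t ^ 2) volume 0 T :=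
    ((continuous_id.pow 2).mul ((derivative p).continuous.pow 2)).intervalIntegrable 0 T
  have i3 : IntervalIntegrable (fun t : ℝ => T ^ 2 * (derivative p).eval t ^ 2) volume 0 T :=
    (continuous_const.mul ((derivative p).continuous.pow 2)).intervalIntegrable 0 T
  have h : (∫ t in (0 : ℝ)..T, t ^ 2 * (derivative p).eval t ^ 2)
      ≤ ∫ t in (0 : ℝ)..T, T ^ 2 * (derivative p).eval t ^ 2 := by
    apply intervalIntegral.integral_mono_on hT i2 i3
    intro t ht
    apply mul_le_mul_of_nonneg_right _ (sq_nonneg _)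
    exact pow_le_pow_left₀ ht.1 ht.2 2
  rw [intervalIntegral.integral_const_mul] at h
  have h2 := mul_le_mul_of_nonneg_left h hT
  nlinarith

/-- `dn T (X * p) ≤ T * sqrt (p(T) ^ 2 + dn T p ^ 2)` -/
lemma dn_X_mul_le (T : ℝ) (hT : 0 ≤ T) (p : ℝ[X]) :
    dn T (X * p) ≤ T * Real.sqrt (p.eval T ^ 2 + dn T p ^ 2) := by
  have h := dn_X_mul_sq_le T hT p
  have h1 : (T * Real.sqrt (p.eval T ^ 2 + dn T p ^ 2)) ^ 2
      = T ^ 2 * (p.eval T ^ 2 + dn T p ^ 2) := by
    rw [mul_pow, Real.sq_sqrt (by positivity)]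
  rw [← h1] at h
  exact (le_abs_self _).trans
    (abs_le_of_sq_le_sq h (mul_nonneg hT (Real.sqrt_nonneg _)))

lemma dn_one_sub_X_mul_sq_le (T : ℝ) (hT : 0 ≤ T) (p : ℝ[X]) :
    dn T (1 - X * p) ^ 2 ≤ T ^ 2 * (p.eval T ^ 2 + dn T p ^ 2) := by
  rw [dn_one_sub]
  exact dn_X_mul_sq_le T hT p

lemma dn_one_sub_X_mul_le (T : ℝ) (hT : 0 ≤ T) (p : ℝ[X]) :
    dn T (1 - X * p) ≤ T * Real.sqrt (p.eval T ^ 2 + dn T p ^ 2) := by
  rw [dn_one_sub]
  exact dn_X_mul_le T hT p

/-- the value at `T` replaced by the value at `t` (for a nonnegative value at `T`) -/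
lemma dn_X_mul_sq_le_at (T : ℝ) (hT : 0 < T) (p : ℝ[X]) (t : ℝ) (h0 : 0 ≤ t) (ht : t ≤ T)
    (hp : 0 ≤ p.eval T) :
    dn T (X * p) ^ 2 ≤ T ^ 2 * ((p.eval t + theta T t * dn T p) ^ 2 + dn T p ^ 2) := by
  have h := dn_X_mul_sq_le T hT.le p
  have h1 := eval_top_le T hT p t h0 ht
  have h2 : p.eval T ^ 2 ≤ (p.eval t + theta T t * dn T p) ^ 2 := pow_le_pow_left₀ hp h1 2
  have h3 : T ^ 2 * (p.eval T ^ 2 + dn T p ^ 2)
      ≤ T ^ 2 * ((p.eval t + theta T t * dn T p) ^ 2 + dn T p ^ 2) :=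
    mul_le_mul_of_nonneg_left (by linarith) (sq_nonneg _)
  exact h.trans h3

lemma dn_X_mul_le_at (T : ℝ) (hT : 0 < T) (p : ℝ[X]) (t : ℝ) (h0 : 0 ≤ t) (ht : t ≤ T)
    (hp : 0 ≤ p.eval T) :
    dn T (X * p) ≤ T * Real.sqrt ((p.eval t + theta T t * dn T p) ^ 2 + dn T p ^ 2) := by
  have h := dn_X_mul_sq_le_at T hT p t h0 ht hp
  have h1 : (T * Real.sqrt ((p.eval t + theta T t * dn T p) ^ 2 + dn T p ^ 2)) ^ 2
      = T ^ 2 * ((p.eval t + theta T t * dn T p) ^ 2 + dn T p ^ 2) := by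
    rw [mul_pow, Real.sq_sqrt (by positivity)]
  rw [← h1] at h
  exact (le_abs_self _).trans
    (abs_le_of_sq_le_sq h (mul_nonneg hT.le (Real.sqrt_nonneg _)))

/-- linear form of the last bound: `sqrt((u+θa)²+a²) ≤ |u| + sqrt(1+θ²) a`-/
lemma dn_X_mul_le_lin (T : ℝ) (hT : 0 < T) (p : ℝ[X]) (t : ℝ) (h0 : 0 ≤ t) (ht : t ≤ T)
    (hp : 0 ≤ p.eval T) :
    dn T (X * p) ≤ T * (|p.eval t| + Real.sqrt (1 + theta T t ^ 2) * dn T p) := by
  refine (dn_X_mul_le_at T hT p t h0 ht hp).trans ?_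
  apply mul_le_mul_of_nonneg_left _ hT.le
  have ha := dn_nonneg T p
  have hth := theta_nonneg T t
  have hs : Real.sqrt (1 + theta T t ^ 2) ^ 2 = 1 + theta T t ^ 2 :=
    Real.sq_sqrt (by positivity)
  have hs0 := Real.sqrt_nonneg (1 + theta T t ^ 2)
  have hle : theta T t ≤ Real.sqrt (1 + theta T t ^ 2) := by
    apply Real.le_sqrt_of_sq_le
    linarith
  rw [Real.sqrt_le_left (by positivity)]
  have hu : p.eval t ≤ |p.eval t| := le_abs_self _
  have hu2 : |p.eval t| ^ 2 = p.eval t ^ 2 := sq_abs _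
  have h3 : p.eval t * (theta T t * dn T p)
      ≤ |p.eval t| * (Real.sqrt (1 + theta T t ^ 2) * dn T p) := by
    calc p.eval t * (theta T t * dn T p) ≤ |p.eval t| * (theta T t * dn T p) :=
          mul_le_mul_of_nonneg_right hu (by positivity)
      _ ≤ |p.eval t| * (Real.sqrt (1 + theta T t ^ 2) * dn T p) :=
          mul_le_mul_of_nonneg_left (mul_le_mul_of_nonneg_right hle ha) (abs_nonneg _)
  have h4 : (Real.sqrt (1 + theta T t ^ 2) * dn T p) ^ 2
      = (1 + theta T t ^ 2) * dn T p ^ 2 := by rw [mul_pow, hs]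
  nlinarith

/-! ### finite sums -/

lemma dn_sum_le {ι : Type*} (T : ℝ) (hT : 0 ≤ T) (s : Finset ι) (p : ι → ℝ[X]) :
    dn T (∑ i ∈ s, p i) ≤ ∑ i ∈ s, dn T (p i) := by
  classical
  induction s using Finset.induction_on with
  | empty => simp [dn_zero]
  | insert a s ha ih =>
    rw [Finset.sum_insert ha, Finset.sum_insert ha]
    exact (dn_add_le T hT _ _).trans (by linarith)

lemma dform_sum_left {ι : Type*} (T : ℝ) (s : Finset ι) (p : ι → ℝ[X]) (q : ℝ[X]) :
    dform T (∑ i ∈ s, p i) q = ∑ i ∈ s, dform T (p i) q := by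
  classical
  induction s using Finset.induction_on with
  | empty => simpa using dform_C_left T 0 q
  | insert a s ha ih =>
    rw [Finset.sum_insert ha, Finset.sum_insert ha, dform_add_left, ih]

lemma dform_sum_right {ι : Type*} (T : ℝ) (s : Finset ι) (p : ι → ℝ[X]) (q : ℝ[X]) :
    dform T q (∑ i ∈ s, p i) = ∑ i ∈ s, dform T q (p i) := by
  rw [dform_comm, dform_sum_left]
  simp only [dform_comm]

/-- `(Σ a_i)² ≤ n Σ a_i²` for the seminorm -/
lemma dn_sum_sq_le {ι : Type*} (T : ℝ) (hT : 0 ≤ T) (s : Finset ι) (p : ι → ℝ[X]) :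
    dn T (∑ i ∈ s, p i) ^ 2 ≤ s.card * ∑ i ∈ s, dn T (p i) ^ 2 := by
  have h := pow_le_pow_left₀ (dn_nonneg _ _) (dn_sum_le T hT s p) 2
  exact h.trans sq_sum_le_card_mul_sum_sq

/-! ### choices of signs -/

lemma exists_sign_pair (T : ℝ) (hT : 0 ≤ T) (p q : ℝ[X]) :
    ∃ e : ℝ, (e = 1 ∨ e = -1) ∧ dn T (p + C e * q) ^ 2 ≤ dn T p ^ 2 + dn T q ^ 2 := by
  rcases le_total (dform T p q) 0 with h | h
  · refine ⟨1, Or.inl rfl, ?_⟩
    rw [map_one, one_mul, dn_add_sq T hT]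
    linarith
  · refine ⟨-1, Or.inr rfl, ?_⟩
    have : p + C (-1) * q = p - q := by simp [sub_eq_add_neg]
    rw [this, dn_sub_sq T hT]
    linarith

/-- signs for a finite family, with the sign at one index prescribed -/
lemma exists_signs {ι : Type*} (T : ℝ) (hT : 0 ≤ T) (s : Finset ι) (p : ι → ℝ[X]) :
    ∃ e : ι → ℝ, (∀ i, e i = 1 ∨ e i = -1) ∧
      dn T (∑ i ∈ s, C (e i) * p i) ^ 2 ≤ ∑ i ∈ s, dn T (p i) ^ 2 := by
  classical
  induction s using Finset.induction_on with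
  | empty =>
    refine ⟨fun _ => 1, fun _ => Or.inl rfl, ?_⟩
    simp [dn_zero]
  | insert a s ha ih =>
    obtain ⟨e, he, hle⟩ := ih
    obtain ⟨c, hc, hc2⟩ := exists_sign_pair T hT (∑ i ∈ s, C (e i) * p i) (p a)
    refine ⟨fun i => if i = a then c else e i, ?_, ?_⟩
    · intro i
      by_cases h : i = a
      · simp only [h, if_true]
        exact hc
      · simp only [h, if_false]
        exact he i
    · rw [Finset.sum_insert ha, Finset.sum_insert ha]
      have hs : (∑ i ∈ s, C (if i = a then c else e i) * p i) = ∑ i ∈ s, C (e i) * p i := by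
        apply Finset.sum_congr rfl
        intro i hi
        have : i ≠ a := fun h => ha (h ▸ hi)
        simp [this]
      simp only [if_true]
      rw [hs, add_comm (C c * p a)]
      linarith

lemma exists_signs_first {ι : Type*} (T : ℝ) (hT : 0 ≤ T) (s : Finset ι) (p : ι → ℝ[X])
    (i0 : ι) (e0 : ℝ) (he0 : e0 = 1 ∨ e0 = -1) :
    ∃ e : ι → ℝ, (∀ i, e i = 1 ∨ e i = -1) ∧ e i0 = e0 ∧
      dn T (∑ i ∈ s, C (e i) * p i) ^ 2 ≤ ∑ i ∈ s, dn T (p i) ^ 2 := by
  obtain ⟨e, he, hle⟩ := exists_signs T hT s p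
  by_cases h : e i0 = e0
  · exact ⟨e, he, h, hle⟩
  · refine ⟨fun i => - e i, ?_, ?_, ?_⟩
    · intro i
      rcases he i with h1 | h1
      · right
        simp only [h1]
      · left
        simp only [h1, neg_neg]
    · rcases he i0 with h1 | h1 <;> rcases he0 with h2 | h2 <;> simp_all
    · have : (∑ i ∈ s, C (- e i) * p i) = - ∑ i ∈ s, C (e i) * p i := by
        rw [← Finset.sum_neg_distrib]
        apply Finset.sum_congr rfl
        intro i _
        simp
      rw [this, dn_neg]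
      exact hle

/-! ### the full norm -/

/-- the squared norm `p(T)² + dn²` -/
noncomputable def hs (T : ℝ) (p : ℝ[X]) : ℝ := p.eval T ^ 2 + dn T p ^ 2

lemma hs_nonneg (T : ℝ) (p : ℝ[X]) : 0 ≤ hs T p := by unfold hs; positivity

lemma dn_X_mul_sq_le_hs (T : ℝ) (hT : 0 ≤ T) (p : ℝ[X]) :
    dn T (X * p) ^ 2 ≤ T ^ 2 * hs T p := dn_X_mul_sq_le T hT p

lemma hs_parallelogram (T : ℝ) (hT : 0 ≤ T) (p q : ℝ[X]) :
    hs T (p + q) + hs T (p - q) = 2 * hs T p + 2 * hs T q := by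
  unfold hs
  have := dn_parallelogram T hT p q
  simp only [eval_add, eval_sub]
  nlinarith

lemma hs_X_mul_le (T : ℝ) (hT : 0 ≤ T) (p : ℝ[X]) :
    hs T (X * p) ≤ T ^ 2 * (2 * p.eval T ^ 2 + dn T p ^ 2) := by
  unfold hs
  have := dn_X_mul_sq_le T hT p
  simp only [eval_mul, eval_X]
  nlinarith

end Pool.Agent.TDN
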